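import Mathlib

/-! # Finite graphs as inputs of Turing machines -/

namespace Pool.Agent.Lib.FOLFP

/-- A finite graph on the vertices `0, …, n - 1`. -/
structure Graph where
  n : ℕ
  G : SimpleGraph (Fin n)

/-- The input symbols. -/
inductive Sym
  | zero | one | sep
  deriving DecidableEq, Fintype

open Classical in
/-- The adjacency matrix as a word: for each row its `n` bits followed by a separator. -/
noncomputable def Graph.encode (I : Graph) : List Sym :=
  (List.ofFn fun i : Fin I.n =>
    (List.ofFn fun j : Fin I.n => if I.G.Adj i j then Sym.one else Sym.zero) ++ [Sym.sep]).flatten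

end Pool.Agent.Lib.FOLFP
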