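import Pool.Agent.Lib.PolyTM.Rules
import Pool.Agent.Lib.FOLFP.Input

section DefPart

/-! # First-order definability over the index range of the array language

A relation of index tuples is definable if it is expressed by a well-formed formula of the array
language. The class of definable relations is closed under Boolean operations, bounded
quantification and substitution of variables; no variable names have to be handled. -/

namespace Pool.Agent.Lib.FOLFP

open Pool.Agent.Lib.PolyTM Function

set_option linter.unusedSectionVars false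

variable {V V' W W' : Type} [DecidableEq V] [DecidableEq V'] [DecidableEq W] [DecidableEq W']

/-- Renaming of variables and arrays. -/
def ren (f : V → V') (g : W → W') : Fml V W → Fml V' W'
  | .arr w xs => .arr (g w) (xs.map f)
  | .le x y => .le (f x) (f y)
  | .not φ => .not (ren f g φ)
  | .and φ ψ => .and (ren f g φ) (ren f g ψ)
  | .ex x φ => .ex (f x) (ren f g φ)

theorem eval_ren {f : V → V'} (hf : Injective f) (g : W → W') (N : ℕ) (a : Arr W')
    (φ : Fml V W) (e : V' → ℕ) :
    (ren f g φ).eval N a e = φ.eval N (fun w => a (g w)) (e ∘ f) := by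
  induction φ generalizing e with
  | arr w xs => simp [ren, Fml.eval, List.map_map]
  | le x y => simp [ren, Fml.eval]
  | not φ ih => simp [ren, Fml.eval, ih]
  | and φ ψ ih1 ih2 => simp [ren, Fml.eval, ih1, ih2]
  | ex x φ ih =>
    have : ∀ t, update e (f x) t ∘ f = update (e ∘ f) x t := by
      intro t
      funext y
      by_cases h : y = x
      · subst h; simp
      · simp [update_of_ne h, update_of_ne (fun hc => h (hf hc))]
    simp [ren, Fml.eval, ih, this]

theorem eval_ren_id {f : V → V'} (hf : Injective f) (N : ℕ) (a : Arr W)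
    (φ : Fml V W) (e : V' → ℕ) :
    (ren f id φ).eval N a e = φ.eval N a (e ∘ f) := eval_ren hf id N a φ e

theorem uses_ren (f : V → V') (g : W → W') (φ : Fml V W) :
    ∀ w ∈ (ren f g φ).uses, ∃ w', g w' = w := by
  induction φ with
  | arr w xs => simp [ren, Fml.uses]
  | le x y => simp [ren, Fml.uses]
  | not φ ih => simpa [ren, Fml.uses] using ih
  | and φ ψ ih1 ih2 =>
    intro w hw
    simp only [ren, Fml.uses, List.mem_append] at hw
    rcases hw with h | h
    · exact ih1 w h
    · exact ih2 w h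
  | ex x φ ih => simpa [ren, Fml.uses] using ih

/-- Well-formedness with a set of variables in scope. -/
def WFs (ar : W → ℕ) : Set V → Fml V W → Prop
  | F, .arr w xs => xs.length = ar w ∧ ∀ x ∈ xs, x ∈ F
  | F, .le x y => x ∈ F ∧ y ∈ F ∧ x ≠ y
  | F, .not φ => WFs ar F φ
  | F, .and φ ψ => WFs ar F φ ∧ WFs ar F ψ
  | F, .ex x φ => x ∉ F ∧ WFs ar (insert x F) φ

omit [DecidableEq W] in
theorem wf_of_WFs {ar : W → ℕ} {φ : Fml V W} {F : List V} (h : WFs ar {x | x ∈ F} φ) :
    φ.wf ar F = true := by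
  induction φ generalizing F with
  | arr w xs => simpa [WFs, Fml.wf] using h
  | le x y => simpa [WFs, Fml.wf, and_assoc] using h
  | not φ ih => exact ih h
  | and φ ψ ih1 ih2 => simp [Fml.wf, ih1 h.1, ih2 h.2]
  | ex x φ ih =>
    have h1 : x ∉ F := h.1
    have h2 : WFs ar {y | y ∈ x :: F} φ := by
      have : {y | y ∈ x :: F} = insert x {y | y ∈ F} := by ext y; simp
      rw [this]; exact h.2
    simp [Fml.wf, h1, ih h2]

omit [DecidableEq V] [DecidableEq V'] [DecidableEq W] [DecidableEq W'] in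
theorem WFs.ren {ar : W → ℕ} {ar' : W' → ℕ} {f : V → V'} (hf : Injective f) {g : W → W'}
    (hg : ∀ w, ar' (g w) = ar w) {φ : Fml V W} {F : Set V} (h : WFs ar F φ) :
    WFs ar' (f '' F) (ren f g φ) := by
  induction φ generalizing F with
  | arr w xs =>
    refine ⟨by simp [hg, h.1], ?_⟩
    intro x hx
    obtain ⟨y, hy, rfl⟩ := List.mem_map.1 hx
    exact ⟨y, h.2 y hy, rfl⟩
  | le x y => exact ⟨⟨x, h.1, rfl⟩, ⟨y, h.2.1, rfl⟩, fun hc => h.2.2 (hf hc)⟩
  | not φ ih => exact ih h
  | and φ ψ ih1 ih2 => exact ⟨ih1 h.1, ih2 h.2⟩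
  | ex x φ ih =>
    refine ⟨fun ⟨y, hy, hyx⟩ => h.1 (hf hyx ▸ hy), ?_⟩
    have := ih h.2
    rwa [Set.image_insert_eq] at this

/-- Existential quantification over a list of variables. -/
def exs : List V → Fml V W → Fml V W
  | [], φ => φ
  | x :: xs, φ => .ex x (exs xs φ)

theorem eval_exs {N : ℕ} {a : Arr W} (xs : List V) (hnd : xs.Nodup) (φ : Fml V W) (e : V → ℕ) :
    (exs xs φ).eval N a e = true ↔ ∃ t : V → ℕ, (∀ x ∈ xs, t x < N) ∧
      (∀ x, x ∉ xs → t x = e x) ∧ φ.eval N a t = true := by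
  induction xs generalizing e with
  | nil =>
    constructor
    · intro h; exact ⟨e, by simp, by simp, h⟩
    · rintro ⟨t, -, h1, h2⟩
      have : t = e := funext fun x => h1 x (by simp)
      rwa [this] at h2
  | cons x xs ih =>
    obtain ⟨hx, hnd'⟩ := List.nodup_cons.1 hnd
    simp only [exs, Fml.eval_ex, ih hnd']
    constructor
    · rintro ⟨s, hs, t, h1, h2, h3⟩
      refine ⟨t, ?_, ?_, h3⟩
      · intro y hy
        rcases List.mem_cons.1 hy with rfl | hy
        · rw [h2 y hx, update_self]; exact hs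
        · exact h1 y hy
      · intro y hy
        simp only [List.mem_cons, not_or] at hy
        rw [h2 y hy.2, update_of_ne hy.1]
    · rintro ⟨t, h1, h2, h3⟩
      refine ⟨t x, h1 x (by simp), t, fun y hy => h1 y (List.mem_cons_of_mem _ hy), ?_, h3⟩
      intro y hy
      by_cases hyx : y = x
      · subst hyx; simp
      · rw [update_of_ne hyx]
        exact h2 y (by simp [hyx, hy])

omit [DecidableEq V] [DecidableEq W] in
theorem WFs.exs {ar : W → ℕ} (xs : List V) (hnd : xs.Nodup) {φ : Fml V W} {F : Set V}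
    (hd : ∀ x ∈ xs, x ∉ F) (h : WFs ar (F ∪ {x | x ∈ xs}) φ) : WFs ar F (exs xs φ) := by
  induction xs generalizing F with
  | nil => simpa [FOLFP.exs] using h
  | cons x xs ih =>
    obtain ⟨hx, hnd'⟩ := List.nodup_cons.1 hnd
    refine ⟨hd x (by simp), ih hnd' ?_ ?_⟩
    · intro y hy hc
      rcases hc with rfl | hc
      · exact hx hy
      · exact hd y (List.mem_cons_of_mem _ hy) hc
    · have : insert x F ∪ {y | y ∈ xs} = F ∪ {y | y ∈ x :: xs} := by
        ext y
        simp only [Set.mem_union, Set.mem_insert_iff, Set.mem_ofPred_eq, List.mem_cons]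
        tauto
      rw [this]
      exact h

omit [DecidableEq V] [DecidableEq W] in
theorem WFs.not_mem_bv {ar : W → ℕ} {φ : Fml V W} {F : Set V} (h : WFs ar F φ) :
    ∀ x ∈ φ.bv, x ∉ F := by
  induction φ generalizing F with
  | arr w xs => simp [Fml.bv]
  | le x y => simp [Fml.bv]
  | not φ ih => exact ih h
  | and φ ψ ih1 ih2 =>
    intro x hx
    rcases hx with hx | hx
    · exact ih1 h.1 x hx
    · exact ih2 h.2 x hx
  | ex x φ ih =>
    intro y hy
    rcases hy with rfl | hy
    · exact h.1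
    · exact fun hc => ih h.2 y hy (Set.mem_insert_of_mem _ hc)

omit [DecidableEq V] [DecidableEq W] in
theorem WFs.mono {ar : W → ℕ} {φ : Fml V W} {F F' : Set V} (h : WFs ar F φ) (hF : F ⊆ F')
    (hb : ∀ x ∈ φ.bv, x ∉ F') : WFs ar F' φ := by
  induction φ generalizing F F' with
  | arr w xs => exact ⟨h.1, fun x hx => hF (h.2 x hx)⟩
  | le x y => exact ⟨hF h.1, hF h.2.1, h.2.2⟩
  | not φ ih => exact ih h hF hb
  | and φ ψ ih1 ih2 =>
    exact ⟨ih1 h.1 hF fun x hx => hb x (Or.inl hx), ih2 h.2 hF fun x hx => hb x (Or.inr hx)⟩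
  | ex x φ ih =>
    refine ⟨hb x (Or.inl rfl), ih h.2 (Set.insert_subset_insert hF) ?_⟩
    intro y hy hc
    rcases hc with rfl | hc
    · exact h.2.not_mem_bv y hy (Set.mem_insert _ _)
    · exact hb y (Or.inr hy) hc

omit [DecidableEq V] [DecidableEq V'] [DecidableEq W] [DecidableEq W'] in
theorem bv_ren (f : V → V') (g : W → W') (φ : Fml V W) : (FOLFP.ren f g φ).bv = f '' φ.bv := by
  induction φ with
  | arr w xs => simp [FOLFP.ren, Fml.bv]
  | le x y => simp [FOLFP.ren, Fml.bv]
  | not φ ih => exact ih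
  | and φ ψ ih1 ih2 => simp [FOLFP.ren, Fml.bv, ih1, ih2, Set.image_union]
  | ex x φ ih => simp [FOLFP.ren, Fml.bv, ih, Set.image_insert_eq]

/-- **Definability** of a relation of index tuples (depending on the index range `N` and on the
array contents), for array contents satisfying the condition `C`. -/
def Def (ar : W → ℕ) (C : ℕ → Arr W → Prop) (κ : Type) [DecidableEq κ]
    (R : ℕ → Arr W → (κ → ℕ) → Prop) : Prop :=
  ∃ (B : Type) (_ : Fintype B) (_ : DecidableEq B) (φ : Fml (κ ⊕ B) W),
    WFs ar (Set.range Sum.inl) φ ∧ ∀ N a e, C N a → (∀ x, e (Sum.inl x) < N) →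
      (φ.eval N a e = true ↔ R N a (e ∘ Sum.inl))

namespace Def

variable {ar : W → ℕ} {C : ℕ → Arr W → Prop} {κ κ' lam : Type} [DecidableEq κ] [DecidableEq κ'] [DecidableEq lam]
  {R S : ℕ → Arr W → (κ → ℕ) → Prop}

theorem congr (h : Def ar C κ R)
    (hRS : ∀ N a e, C N a → (∀ x, e x < N) → (R N a e ↔ S N a e)) : Def ar C κ S := by
  obtain ⟨B, i1, i2, φ, h1, h2⟩ := h
  exact ⟨B, i1, i2, φ, h1, fun N a e hC he => (h2 N a e hC he).trans (hRS N a _ hC he)⟩

theorem arr (w : W) (f : Fin (ar w) → κ) :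
    Def ar C κ (fun _ a e => a w (List.ofFn fun i => e (f i)) = true) := by
  refine ⟨Empty, inferInstance, inferInstance, .arr w (List.ofFn fun i => Sum.inl (f i)),
    ⟨by simp, ?_⟩, ?_⟩
  · intro x hx
    obtain ⟨i, rfl⟩ := (List.mem_ofFn' _ _).1 hx
    exact ⟨f i, rfl⟩
  · intro N a e _ _
    rw [Fml.eval_arr, List.map_ofFn]
    rfl

theorem mono {C' : ℕ → Arr W → Prop} (h : Def ar C κ R) (hC : ∀ N a, C' N a → C N a) :
    Def ar C' κ R := by
  obtain ⟨B, i1, i2, φ, h1, h2⟩ := h
  exact ⟨B, i1, i2, φ, h1, fun N a e hC' he => h2 N a e (hC N a hC') he⟩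

theorem not (h : Def ar C κ R) : Def ar C κ (fun N a e => ¬ R N a e) := by
  obtain ⟨B, i1, i2, φ, h1, h2⟩ := h
  exact ⟨B, i1, i2, .not φ, h1, fun N a e hC he => by rw [Fml.eval_not, h2 N a e hC he]⟩

theorem and (h : Def ar C κ R) (h' : Def ar C κ S) :
    Def ar C κ (fun N a e => R N a e ∧ S N a e) := by
  obtain ⟨B, i1, i2, φ, h1, h2⟩ := h
  obtain ⟨B', i1', i2', φ', h1', h2'⟩ := h'
  have f1 : Injective (Sum.map id Sum.inl : κ ⊕ B → κ ⊕ (B ⊕ B')) :=
    Sum.map_injective.2 ⟨injective_id, Sum.inl_injective⟩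
  have f2 : Injective (Sum.map id Sum.inr : κ ⊕ B' → κ ⊕ (B ⊕ B')) :=
    Sum.map_injective.2 ⟨injective_id, Sum.inr_injective⟩
  refine ⟨B ⊕ B', inferInstance, inferInstance, .and (ren (Sum.map id Sum.inl) id φ)
    (ren (Sum.map id Sum.inr) id φ'), ⟨?_, ?_⟩, ?_⟩
  · have := h1.ren f1 (g := id) (ar' := ar) (fun _ => rfl)
    rwa [← Set.range_comp] at this
  · have := h1'.ren f2 (g := id) (ar' := ar) (fun _ => rfl)
    rwa [← Set.range_comp] at this
  · intro N a e hC he
    rw [Fml.eval_and, eval_ren_id f1, eval_ren_id f2]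
    rw [h2 N _ _ hC he, h2' N _ _ hC he]
    rfl

/-- Injective renaming. -/
theorem rename (f : κ → κ') (hf : Injective f) (h : Def ar C κ R) :
    Def ar C κ' (fun N a e => R N a (e ∘ f)) := by
  obtain ⟨B, i1, i2, φ, h1, h2⟩ := h
  have f1 : Injective (Sum.map f id : κ ⊕ B → κ' ⊕ B) := Sum.map_injective.2 ⟨hf, injective_id⟩
  refine ⟨B, i1, i2, ren (Sum.map f id) id φ, ?_, ?_⟩
  · refine (h1.ren f1 (g := id) (ar' := ar) (fun _ => rfl)).mono ?_ ?_
    · rintro _ ⟨_, ⟨x, rfl⟩, rfl⟩
      exact ⟨f x, rfl⟩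
    · intro x hx hc
      rw [bv_ren] at hx
      obtain ⟨y, hy, rfl⟩ := hx
      obtain ⟨z, hz⟩ := hc
      cases y with
      | inl y => exact h1.not_mem_bv _ hy ⟨y, rfl⟩
      | inr y => simp at hz
  · intro N a e hC he
    rw [eval_ren_id f1, h2 N _ _ hC (fun x => he (f x))]
    rfl

/-- Bounded quantification over finitely many new variables. -/
theorem ex [Fintype lam] {R : ℕ → Arr W → (κ ⊕ lam → ℕ) → Prop} (h : Def ar C (κ ⊕ lam) R) :
    Def ar C κ (fun N a e => ∃ t : lam → ℕ, (∀ l, t l < N) ∧ R N a (Sum.elim e t)) := by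
  obtain ⟨B, i1, i2, φ, h1, h2⟩ := h
  set f : (κ ⊕ lam) ⊕ B → κ ⊕ (lam ⊕ B) := ⇑(Equiv.sumAssoc κ lam B) with hf
  have hfi : Injective f := (Equiv.sumAssoc κ lam B).injective
  set xs : List (κ ⊕ (lam ⊕ B)) := (Finset.univ : Finset lam).toList.map (fun l => Sum.inr (Sum.inl l))
    with hxs
  have hmem : ∀ x, x ∈ xs ↔ ∃ l, x = Sum.inr (Sum.inl l) := by
    intro x
    simp [hxs, eq_comm]
  have hnd : xs.Nodup := (Finset.nodup_toList _).map (fun l l' hl => by simpa using hl)
  refine ⟨lam ⊕ B, inferInstance, inferInstance, exs xs (ren f id φ), ?_, ?_⟩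
  · apply WFs.exs xs hnd
    · intro x hx hc
      obtain ⟨l, rfl⟩ := (hmem x).1 hx
      obtain ⟨y, hy⟩ := hc
      simp at hy
    · have := h1.ren hfi (g := id) (ar' := ar) (fun _ => rfl)
      convert this using 1
      ext x
      simp only [Set.mem_union, Set.mem_range, Set.mem_ofPred_eq, hmem, Set.mem_image,
        exists_exists_eq_and]
      constructor
      · rintro (⟨y, rfl⟩ | ⟨l, rfl⟩)
        · exact ⟨Sum.inl y, rfl⟩
        · exact ⟨Sum.inr l, rfl⟩
      · rintro ⟨y | l, rfl⟩
        · exact Or.inl ⟨y, rfl⟩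
        · exact Or.inr ⟨l, rfl⟩
  · intro N a e hC he
    rw [eval_exs xs hnd]
    constructor
    · rintro ⟨t, g1, g2, g3⟩
      have hlt : ∀ l, t (Sum.inr (Sum.inl l)) < N := fun l => g1 _ ((hmem _).2 ⟨l, rfl⟩)
      have hinl : ∀ x, t (Sum.inl x) = e (Sum.inl x) := fun x => g2 _ (by simp [hmem])
      refine ⟨fun l => t (Sum.inr (Sum.inl l)), hlt, ?_⟩
      rw [eval_ren_id hfi, h2 _ _ _ hC] at g3
      · have e1 : (t ∘ f) ∘ Sum.inl = Sum.elim (e ∘ Sum.inl)
            (fun l => t (Sum.inr (Sum.inl l))) := by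
          funext x
          cases x with
          | inl x => simp [hf, hinl]
          | inr l => simp [hf]
        rw [e1] at g3
        exact g3
      · intro x
        cases x with
        | inl x => simpa [hf, hinl] using he x
        | inr l => simpa [hf] using hlt l
    · rintro ⟨t, g1, g2⟩
      refine ⟨fun x => match x with
        | .inl x => e (.inl x)
        | .inr (.inl l) => t l
        | .inr (.inr b) => e (.inr (.inr b)), ?_, ?_, ?_⟩
      · intro x hx
        obtain ⟨l, rfl⟩ := (hmem x).1 hx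
        exact g1 l
      · intro x hx
        match x with
        | .inl x => rfl
        | .inr (.inl l) => exact absurd ((hmem _).2 ⟨l, rfl⟩) hx
        | .inr (.inr b) => rfl
      · rw [eval_ren_id hfi, h2 _ _ _ hC]
        · refine (iff_of_eq ?_).mp g2
          congr 1
          funext x
          cases x <;> simp [hf]
        · intro x
          cases x with
          | inl x => simpa [hf] using he x
          | inr l => simpa [hf] using g1 l

theorem true' [Inhabited W] : Def ar C κ (fun _ _ _ => True) := by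
  refine ⟨Unit, inferInstance, inferInstance,
    .not (.ex (Sum.inr ()) (.and (.arr default (List.replicate (ar default) (Sum.inr ())))
      (.not (.arr default (List.replicate (ar default) (Sum.inr ())))))), ?_, ?_⟩
  · refine ⟨by simp, ⟨by simp, ?_⟩, ⟨by simp, ?_⟩⟩ <;>
    · intro x hx
      exact Or.inl (List.eq_of_mem_replicate hx)
  · intro N a e _ _
    simp only [Fml.eval_not, Fml.eval_ex, Fml.eval_and]
    simp

theorem const [Inhabited W] (p : Prop) : Def ar C κ (fun _ _ _ => p) := by
  by_cases hp : p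
  · exact true'.congr (by simp [hp])
  · exact true'.not.congr (by simp [hp])

theorem le [Inhabited W] (i j : κ) : Def ar C κ (fun _ _ e => e i ≤ e j) := by
  by_cases hij : i = j
  · subst hij
    exact true'.congr (by simp)
  · refine ⟨Empty, inferInstance, inferInstance, .le (Sum.inl i) (Sum.inl j),
      ⟨⟨i, rfl⟩, ⟨j, rfl⟩, by simpa using hij⟩, ?_⟩
    intro N a e _ _
    simp [Fml.eval]

theorem or (h : Def ar C κ R) (h' : Def ar C κ S) :
    Def ar C κ (fun N a e => R N a e ∨ S N a e) :=
  (h.not.and h'.not).not.congr (by intro N a e _ _; tauto)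

theorem imp (h : Def ar C κ R) (h' : Def ar C κ S) :
    Def ar C κ (fun N a e => R N a e → S N a e) :=
  (h.not.or h').congr (by intro N a e _ _; tauto)

theorem iff (h : Def ar C κ R) (h' : Def ar C κ S) :
    Def ar C κ (fun N a e => (R N a e ↔ S N a e)) :=
  ((h.imp h').and (h'.imp h)).congr (by intro N a e _ _; tauto)

theorem all' [Fintype lam] {R : ℕ → Arr W → (κ ⊕ lam → ℕ) → Prop} (h : Def ar C (κ ⊕ lam) R) :
    Def ar C κ (fun N a e => ∀ t : lam → ℕ, (∀ l, t l < N) → R N a (Sum.elim e t)) :=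
  h.not.ex.not.congr (by intro N a e _ _; push Not; rfl)

theorem eq [Inhabited W] (i j : κ) : Def ar C κ (fun _ _ e => e i = e j) :=
  ((le i j).and (le j i)).congr (by intro N a e _ _; omega)

theorem lt [Inhabited W] (i j : κ) : Def ar C κ (fun _ _ e => e i < e j) :=
  (le j i).not.congr (by intro N a e _ _; omega)

/-- Finite conjunctions. -/
theorem forall' [Inhabited W] {J : Type*} [Finite J] {R : J → ℕ → Arr W → (κ → ℕ) → Prop}
    (h : ∀ j, Def ar C κ (R j)) : Def ar C κ (fun N a e => ∀ j, R j N a e) := by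
  have := Fintype.ofFinite J
  have key : ∀ s : Finset J, Def ar C κ (fun N a e => ∀ j ∈ s, R j N a e) := by
    classical
    intro s
    induction s using Finset.induction_on with
    | empty => exact true'.congr (by simp)
    | insert j s _ ih => exact ((h j).and ih).congr (by intro N a e _ _; simp)
  exact (key Finset.univ).congr (by simp)

/-- Finite disjunctions. -/
theorem exists' [Inhabited W] {J : Type*} [Finite J] {R : J → ℕ → Arr W → (κ → ℕ) → Prop}
    (h : ∀ j, Def ar C κ (R j)) : Def ar C κ (fun N a e => ∃ j, R j N a e) :=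
  (forall' fun j => (h j).not).not.congr (by intro N a e _ _; push Not; rfl)

/-- Substitution of variables. -/
theorem subst [Inhabited W] [Fintype κ] (f : κ → κ') (h : Def ar C κ R) :
    Def ar C κ' (fun N a e => R N a (e ∘ f)) := by
  have h1 : Def ar C (κ' ⊕ κ) (fun N a e => R N a (e ∘ Sum.inr)) :=
    h.rename Sum.inr Sum.inr_injective
  have h2 : Def ar C (κ' ⊕ κ) (fun _ _ e => ∀ i : κ, e (Sum.inr i) = e (Sum.inl (f i))) :=
    forall' fun i => eq _ _
  refine (h2.and h1).ex.congr ?_
  intro N a e _ he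
  constructor
  · rintro ⟨t, g1, g2, g3⟩
    have : t = e ∘ f := funext fun i => g2 i
    subst this
    exact g3
  · intro g
    exact ⟨e ∘ f, fun i => he _, fun i => rfl, g⟩

end Def

end Pool.Agent.Lib.FOLFP

end DefPart

section BigPart

/-! # Definability over the larger range `0, …, N ^ D - 1`

Numbers below `N ^ D` are represented by `D` digits in base `N`. -/

namespace Pool.Agent.Lib.FOLFP

open Pool.Agent.Lib.PolyTM Function

set_option linter.unusedSectionVars false

/-- Value of a digit vector. -/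
def bval (N : ℕ) {D : ℕ} (d : Fin D → ℕ) : ℕ := ∑ i, d i * N ^ (i : ℕ)

/-- Digits. -/
def bdig (N x i : ℕ) : ℕ := x / N ^ i % N

theorem bval_lt {N D : ℕ} {d : Fin D → ℕ} (h : ∀ i, d i < N) : bval N d < N ^ D := by
  have := (finFunctionFinEquiv (fun i => (⟨d i, h i⟩ : Fin N))).2
  rwa [finFunctionFinEquiv_apply_val] at this

theorem bdig_bval {N D : ℕ} {d : Fin D → ℕ} (h : ∀ i, d i < N) (i : Fin D) :
    bdig N (bval N d) i = d i := by
  have h1 := congrFun (finFunctionFinEquiv.symm_apply_apply (fun i => (⟨d i, h i⟩ : Fin N))) i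
  have h2 := congrArg Fin.val h1
  rw [finFunctionFinEquiv_symm_apply_val, finFunctionFinEquiv_apply_val] at h2
  exact h2

theorem bval_bdig {N D x : ℕ} (h : x < N ^ D) : bval N (fun i : Fin D => bdig N x i) = x := by
  have h1 := finFunctionFinEquiv.apply_symm_apply (⟨x, h⟩ : Fin (N ^ D))
  have h2 := congrArg Fin.val h1
  rw [finFunctionFinEquiv_apply_val] at h2
  simp only [finFunctionFinEquiv_symm_apply_val] at h2
  exact h2

theorem bdig_lt {N : ℕ} (hN : 0 < N) (x i : ℕ) : bdig N x i < N := Nat.mod_lt _ hN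

theorem bval_ext {N D : ℕ} {d d' : Fin D → ℕ} (h : ∀ i, d i < N) (h' : ∀ i, d' i < N)
    (e : bval N d = bval N d') : d = d' := by
  funext i
  rw [← bdig_bval h i, ← bdig_bval h' i, e]

theorem bval_succ (N : ℕ) {D : ℕ} (d : Fin (D + 1) → ℕ) :
    bval N d = bval N (fun i : Fin D => d i.castSucc) + d (Fin.last D) * N ^ D := by
  simp [bval, Fin.sum_univ_castSucc]

theorem bval_le_iff {N D : ℕ} {d d' : Fin (D + 1) → ℕ} (h : ∀ i, d i < N)
    (h' : ∀ i, d' i < N) : bval N d ≤ bval N d' ↔ d (Fin.last D) < d' (Fin.last D) ∨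
      (d (Fin.last D) = d' (Fin.last D) ∧
        bval N (fun i : Fin D => d i.castSucc) ≤ bval N (fun i : Fin D => d' i.castSucc)) := by
  rw [bval_succ, bval_succ N d']
  have h1 : bval N (fun i : Fin D => d i.castSucc) < N ^ D := bval_lt fun i => h _
  have h2 : bval N (fun i : Fin D => d' i.castSucc) < N ^ D := bval_lt fun i => h' _
  generalize bval N (fun i : Fin D => d i.castSucc) = A at *
  generalize bval N (fun i : Fin D => d' i.castSucc) = B at *
  generalize d (Fin.last D) = x at *
  generalize d' (Fin.last D) = y at *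
  rcases lt_trichotomy x y with hxy | hxy | hxy
  · have : (x + 1) * N ^ D ≤ y * N ^ D := Nat.mul_le_mul_right _ hxy
    constructor
    · intro _; exact Or.inl hxy
    · intro _; nlinarith
  · subst hxy; simp
  · have : (y + 1) * N ^ D ≤ x * N ^ D := Nat.mul_le_mul_right _ hxy
    constructor
    · intro hc; nlinarith
    · rintro (hc | ⟨hc, _⟩) <;> omega

variable {W1 : Type} [DecidableEq W1] {ι : W1 → Type} [∀ w, Fintype (ι w)]
  [∀ w, DecidableEq (ι w)] {D : ℕ}

/-- Arities: `none` is the adjacency matrix given as input, `some w` is an array indexed by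
tuples `ι w → {0, …, N ^ D - 1}`. -/
def bar (ι : W1 → Type) [∀ w, Fintype (ι w)] (D : ℕ) : Option W1 → ℕ
  | none => 2
  | some w => Fintype.card (ι w × Fin D)

/-- Numbering of the index places. -/
noncomputable def pl (ι : W1 → Type) [∀ w, Fintype (ι w)] (D : ℕ) (w : W1) :
    Fin (bar ι D (some w)) ≃ ι w × Fin D := (Fintype.equivFin _).symm

/-- The list of digits of a tuple. -/
noncomputable def lst (ι : W1 → Type) [∀ w, Fintype (ι w)] (D N : ℕ) (w : W1)
    (E : ι w → ℕ) : List ℕ :=
  List.ofFn fun i => bdig N (E (pl ι D w i).1) (pl ι D w i).2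

/-- Truth of an array at a tuple of large numbers. -/
def BA (ι : W1 → Type) [∀ w, Fintype (ι w)] (D N : ℕ) (a : Arr (Option W1)) (w : W1)
    (E : ι w → ℕ) : Prop := a (some w) (lst ι D N w E) = true

/-- The adjacency relation given by the input. -/
def BAdj (N : ℕ) (a : Arr (Option W1)) (x y : ℕ) : Prop := x < N ∧ y < N ∧ a none [x, y] = true

/-- Definability over the larger range. -/
def BDef (ι : W1 → Type) [∀ w, Fintype (ι w)] (D : ℕ) (C : ℕ → Arr (Option W1) → Prop)
    (κ : Type) [DecidableEq κ] (R : ℕ → Arr (Option W1) → (κ → ℕ) → Prop) : Prop :=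
  Def (bar ι D) C (κ × Fin D) (fun N a d => R N a (fun x => bval N (fun i => d (x, i))))

namespace BDef

variable {C : ℕ → Arr (Option W1) → Prop} {κ κ' lam : Type} [DecidableEq κ] [DecidableEq κ'] [DecidableEq lam]
  {R S : ℕ → Arr (Option W1) → (κ → ℕ) → Prop}

theorem congr (h : BDef ι D C κ R)
    (hRS : ∀ N a e, C N a → (∀ x, e x < N ^ D) → (R N a e ↔ S N a e)) :
    BDef ι D C κ S :=
  Def.congr h fun N a d hC hd => hRS N a _ hC fun x => bval_lt fun i => hd (x, i)

theorem mono {C' : ℕ → Arr (Option W1) → Prop} (h : BDef ι D C κ R)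
    (hC : ∀ N a, C' N a → C N a) : BDef ι D C' κ R := Def.mono h hC

theorem not (h : BDef ι D C κ R) : BDef ι D C κ (fun N a e => ¬ R N a e) := Def.not h

theorem and (h : BDef ι D C κ R) (h' : BDef ι D C κ S) :
    BDef ι D C κ (fun N a e => R N a e ∧ S N a e) := Def.and h h'

theorem or (h : BDef ι D C κ R) (h' : BDef ι D C κ S) :
    BDef ι D C κ (fun N a e => R N a e ∨ S N a e) := Def.or h h'

theorem imp (h : BDef ι D C κ R) (h' : BDef ι D C κ S) :
    BDef ι D C κ (fun N a e => R N a e → S N a e) := Def.imp h h'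

theorem iff (h : BDef ι D C κ R) (h' : BDef ι D C κ S) :
    BDef ι D C κ (fun N a e => (R N a e ↔ S N a e)) := Def.iff h h'

theorem const (p : Prop) : BDef ι D C κ (fun _ _ _ => p) := Def.const p

theorem forall' {J : Type*} [Finite J] {R : J → ℕ → Arr (Option W1) → (κ → ℕ) → Prop}
    (h : ∀ j, BDef ι D C κ (R j)) : BDef ι D C κ (fun N a e => ∀ j, R j N a e) := Def.forall' h

theorem exists' {J : Type*} [Finite J] {R : J → ℕ → Arr (Option W1) → (κ → ℕ) → Prop}
    (h : ∀ j, BDef ι D C κ (R j)) : BDef ι D C κ (fun N a e => ∃ j, R j N a e) := Def.exists' h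

theorem subst [Fintype κ] (f : κ → κ') (h : BDef ι D C κ R) :
    BDef ι D C κ' (fun N a e => R N a (e ∘ f)) :=
  Def.subst (κ' := κ' × Fin D) (Prod.map f id) h

theorem ex [Fintype lam] {R : ℕ → Arr (Option W1) → (κ ⊕ lam → ℕ) → Prop}
    (h : BDef ι D C (κ ⊕ lam) R) :
    BDef ι D C κ (fun N a e => ∃ t : lam → ℕ, (∀ l, t l < N ^ D) ∧ R N a (Sum.elim e t)) := by
  have h1 := Def.rename (κ' := (κ × Fin D) ⊕ (lam × Fin D)) (Equiv.sumProdDistrib κ lam (Fin D))
    (Equiv.sumProdDistrib κ lam (Fin D)).injective h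
  refine (Def.ex h1).congr ?_
  intro N a e _ he
  constructor
  · rintro ⟨t, g1, g2⟩
    refine ⟨fun l => bval N fun i => t (l, i), fun l => bval_lt fun i => g1 _, ?_⟩
    refine (iff_of_eq ?_).mp g2
    congr 1
    funext x
    cases x <;> simp
  · rintro ⟨t, g1, g2⟩
    have hN : ∀ l (i : Fin D), bdig N (t l) i < N := by
      intro l i
      rcases Nat.eq_zero_or_pos N with h0 | h0
      · exfalso
        subst h0
        have := g1 l
        rw [zero_pow (by have := i.2; omega)] at this
        omega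
      · exact bdig_lt h0 _ _
    refine ⟨fun x => bdig N (t x.1) x.2, fun x => hN _ _, ?_⟩
    refine (iff_of_eq ?_).mp g2
    congr 1
    funext x
    cases x with
    | inl x => simp
    | inr x => simpa using (bval_bdig (g1 x)).symm

theorem all' [Fintype lam] {R : ℕ → Arr (Option W1) → (κ ⊕ lam → ℕ) → Prop}
    (h : BDef ι D C (κ ⊕ lam) R) :
    BDef ι D C κ (fun N a e => ∀ t : lam → ℕ, (∀ l, t l < N ^ D) → R N a (Sum.elim e t)) :=
  h.not.ex.not.congr (by intro N a e _ _; push Not; rfl)

/-- Comparison. -/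
theorem le (x y : κ) : BDef ι D C κ (fun _ _ e => e x ≤ e y) := by
  have key : ∀ (D' : ℕ) (f g : Fin D' → κ × Fin D), Def (bar ι D) C (κ × Fin D)
      (fun N _ d => bval N (fun i => d (f i)) ≤ bval N (fun i => d (g i))) := by
    intro D'
    induction D' with
    | zero =>
      intro f g
      exact (Def.const (κ := κ × Fin D) True).congr (by intro N a e _ _; simp [bval])
    | succ D' ih =>
      intro f g
      refine ((Def.lt (f (Fin.last _)) (g (Fin.last _))).or
        ((Def.eq (f (Fin.last _)) (g (Fin.last _))).and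
          (ih (fun i => f i.castSucc) (fun i => g i.castSucc)))).congr ?_
      intro N a e _ he
      exact (bval_le_iff (fun i => he _) (fun i => he _)).symm
  exact key D (fun i => (x, i)) (fun i => (y, i))

theorem lt (x y : κ) : BDef ι D C κ (fun _ _ e => e x < e y) :=
  (le y x).not.congr (by intro N a e _ _; omega)

theorem eq (x y : κ) : BDef ι D C κ (fun _ _ e => e x = e y) :=
  ((le x y).and (le y x)).congr (by intro N a e _ _; omega)

/-- One new variable. -/
theorem ex1 {R : ℕ → Arr (Option W1) → (κ ⊕ Unit → ℕ) → Prop} (h : BDef ι D C (κ ⊕ Unit) R) :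
    BDef ι D C κ (fun N a e => ∃ t < N ^ D, R N a (Sum.elim e fun _ => t)) := by
  refine h.ex.congr ?_
  intro N a e _ _
  constructor
  · rintro ⟨t, g1, g2⟩
    exact ⟨t (), g1 (), g2⟩
  · rintro ⟨t, g1, g2⟩
    exact ⟨fun _ => t, fun _ => g1, g2⟩

theorem all1 {R : ℕ → Arr (Option W1) → (κ ⊕ Unit → ℕ) → Prop} (h : BDef ι D C (κ ⊕ Unit) R) :
    BDef ι D C κ (fun N a e => ∀ t < N ^ D, R N a (Sum.elim e fun _ => t)) :=
  h.not.ex1.not.congr (by intro N a e _ _; push Not; rfl)

theorem isZero (x : κ) : BDef ι D C κ (fun _ _ e => e x = 0) := by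
  have h : BDef ι D C (κ ⊕ Unit) (fun _ _ e => e (Sum.inl x) ≤ e (Sum.inr ())) := le _ _
  refine h.all1.congr ?_
  intro N a e _ he
  constructor
  · intro g
    have := g 0 (lt_of_le_of_lt (Nat.zero_le _) (he x))
    simpa using this
  · intro g t _
    simp [g]

theorem isSucc (x y : κ) : BDef ι D C κ (fun _ _ e => e y = e x + 1) := by
  have h : BDef ι D C (κ ⊕ Unit) (fun _ _ e => e (Sum.inr ()) ≤ e (Sum.inl x) ∨
    e (Sum.inl y) ≤ e (Sum.inr ())) := (le _ _).or (le _ _)
  refine ((lt x y).and h.all1).congr ?_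
  intro N a e _ he
  simp only [Sum.elim_inl, Sum.elim_inr]
  constructor
  · rintro ⟨g1, g2⟩
    have := g2 (e x + 1) (lt_of_le_of_lt g1 (he y))
    omega
  · intro g
    exact ⟨by omega, fun t _ => by omega⟩

theorem isConst (c : ℕ) (x : κ) : BDef ι D C κ (fun _ _ e => e x = c) := by
  induction c generalizing κ with
  | zero => exact isZero x
  | succ c ih =>
    have h : BDef ι D C (κ ⊕ Unit) (fun _ _ e => e (Sum.inr ()) = c ∧
      e (Sum.inl x) = e (Sum.inr ()) + 1) := (ih (Sum.inr ())).and (isSucc _ _)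
    refine h.ex1.congr ?_
    intro N a e _ he
    simp only [Sum.elim_inl, Sum.elim_inr]
    constructor
    · rintro ⟨t, -, rfl, g⟩; exact g
    · intro g
      exact ⟨c, by have := he x; omega, rfl, g⟩

/-- Access to an array. -/
theorem arr (w : W1) (f : ι w → κ) : BDef ι D C κ (fun N a e => BA ι D N a w (e ∘ f)) := by
  refine (Def.arr (some w) (fun i => (f (pl ι D w i).1, (pl ι D w i).2))).congr ?_
  intro N a d _ hd
  unfold BA lst
  have : ∀ i, bdig N (bval N fun j => d (f (pl ι D w i).1, j)) (pl ι D w i).2 =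
      d (f (pl ι D w i).1, (pl ι D w i).2) := fun i => bdig_bval (fun j => hd _) _
  simp only [comp_apply, this]

/-- Vertices: numbers below `N`. -/
theorem isVert (x : κ) : BDef ι (D + 1) C κ (fun N _ e => e x < N) := by
  have h0 : ∀ i : Fin D, Def (bar ι (D + 1)) C (κ × Fin (D + 1))
      (fun N _ d => d (x, i.succ) = 0) := by
    intro i
    have h : Def (bar ι (D + 1)) C ((κ × Fin (D + 1)) ⊕ Unit)
      (fun _ _ e => e (Sum.inl (x, i.succ)) ≤ e (Sum.inr ())) := Def.le _ _
    refine h.all'.congr ?_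
    intro N a e _ he
    constructor
    · intro g
      have := g (fun _ => 0) (fun _ => lt_of_le_of_lt (Nat.zero_le _) (he (x, i.succ)))
      simpa using this
    · intro g t _
      simp [g]
  refine (Def.forall' h0).congr ?_
  intro N a d _ hd
  have hN : 0 < N := lt_of_le_of_lt (Nat.zero_le _) (hd (x, 0))
  have e1 : bval N (fun i => d (x, i)) = d (x, 0) + N * ∑ i : Fin D, d (x, i.succ) * N ^ (i : ℕ) := by
    simp only [bval, Fin.sum_univ_succ, Fin.val_zero, pow_zero, mul_one, Fin.val_succ,
      Finset.mul_sum]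
    congr 1
    refine Finset.sum_congr rfl fun i _ => ?_
    ring
  show (∀ i : Fin D, d (x, i.succ) = 0) ↔ bval N (fun i => d (x, i)) < N
  rw [e1]
  constructor
  · intro g
    simp only [g, zero_mul, Finset.sum_const_zero, mul_zero, add_zero]
    exact hd _
  · intro g i
    by_contra hc
    have h1 : 1 ≤ ∑ i : Fin D, d (x, i.succ) * N ^ (i : ℕ) := by
      refine le_trans ?_ (Finset.single_le_sum (f := fun i : Fin D => d (x, i.succ) * N ^ (i : ℕ))
        (fun _ _ => Nat.zero_le _) (Finset.mem_univ i))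
      have h2 := Nat.pos_of_ne_zero hc
      have h3 : 0 < N ^ (i : ℕ) := pow_pos hN _
      exact Nat.mul_pos h2 h3
    nlinarith

/-- Adjacency. -/
theorem adj (x y : κ) : BDef ι (D + 1) C κ (fun N a e => BAdj N a (e x) (e y)) := by
  have h : Def (bar ι (D + 1)) C (κ × Fin (D + 1)) (fun _ a d => a none [d (x, 0), d (y, 0)] = true) :=
    (Def.arr (ar := bar ι (D + 1)) none ![(x, 0), (y, 0)]).congr (by
      intro N a e _ _
      simp [bar, List.ofFn_succ])
  refine (((isVert x).and (isVert y)).congr (S := fun N _ e => e x < N ∧ e y < N) ?_ |>.and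
    (R := fun N _ e => e x < N ∧ e y < N)
    (S := fun N a e => a none [bdig N (e x) 0, bdig N (e y) 0] = true) ?_).congr ?_
  · intro N a e _ _; rfl
  · refine Def.congr h ?_
    intro N a d _ hd
    have h1 : ∀ z : κ, bdig N (bval N fun i => d (z, i)) 0 = d (z, 0) := fun z =>
      bdig_bval (D := D + 1) (fun i => hd (z, i)) 0
    simp only [h1]
  · intro N a e _ _
    unfold BAdj
    constructor
    · rintro ⟨⟨g1, g2⟩, g3⟩
      simp only [bdig, pow_zero, Nat.div_one, Nat.mod_eq_of_lt g1, Nat.mod_eq_of_lt g2] at g3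
      exact ⟨g1, g2, g3⟩
    · rintro ⟨g1, g2, g3⟩
      refine ⟨⟨g1, g2⟩, ?_⟩
      simpa only [bdig, pow_zero, Nat.div_one, Nat.mod_eq_of_lt g1, Nat.mod_eq_of_lt g2] using g3

end BDef

end Pool.Agent.Lib.FOLFP

end BigPart

section LfpPart

/-! # Inflationary fixed points are computed by programs of the array language -/

namespace Pool.Agent.Lib.FOLFP

open Pool.Agent.Lib.PolyTM Function

set_option linter.unusedSectionVars false

section Ren

variable {V V' W : Type} [DecidableEq V] [DecidableEq V'] [DecidableEq W]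

/-- Renaming of the variables of a condition. -/
def cren (f : V → V') : Cond V W → Cond V' W
  | .fml φ => .fml (ren f id φ)
  | .more x φ ψ => .more (f x) (ren f id φ) (ren f id ψ)

/-- Renaming of the variables of a statement. -/
def sren (f : V → V') : Stmt V W → Stmt V' W
  | .wr w xs φ => .wr w (xs.map f) (ren f id φ)
  | .seq s t => .seq (sren f s) (sren f t)
  | .ite c s t => .ite (cren f c) (sren f s) (sren f t)
  | .loop x s => .loop (f x) (sren f s)
  | .emit φ => .emit (ren f id φ)
  | .skip => .skip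

theorem update_comp_inj {f : V → V'} (hf : Injective f) (e : V' → ℕ) (x : V) (t : ℕ) :
    update e (f x) t ∘ f = update (e ∘ f) x t := by
  funext y
  by_cases h : y = x
  · subst h; simp
  · simp [update_of_ne h, update_of_ne (fun hc => h (hf hc))]

theorem count_ren {f : V → V'} (hf : Injective f) (N : ℕ) (a : Arr W) (φ : Fml V W) (x : V)
    (e : V' → ℕ) : (ren f id φ).count N a (f x) e = φ.count N a x (e ∘ f) := by
  unfold Fml.count
  congr 1
  apply Finset.filter_congr
  intro t _
  rw [eval_ren_id hf, update_comp_inj hf]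

theorem ceval_ren {f : V → V'} (hf : Injective f) (N : ℕ) (a : Arr W) (c : Cond V W)
    (e : V' → ℕ) : (cren f c).eval N a e = c.eval N a (e ∘ f) := by
  cases c with
  | fml φ => exact eval_ren_id hf N a φ e
  | more x φ ψ => simp only [cren, Cond.eval, count_ren hf]

theorem run_ren {f : V → V'} (hf : Injective f) (N : ℕ) (s : Stmt V W) (e : V' → ℕ)
    (σ : AS W) : (sren f s).run N e σ = s.run N (e ∘ f) σ := by
  induction s generalizing e σ with
  | wr w xs φ => simp [sren, Stmt.run, eval_ren_id hf]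
  | seq s t ih1 ih2 => simp [sren, Stmt.run, ih1, ih2]
  | ite c s t ih1 ih2 => simp [sren, Stmt.run, ih1, ih2, ceval_ren hf]
  | loop x s ih => simp only [sren, Stmt.run, ih, update_comp_inj hf]
  | emit φ => simp [sren, Stmt.run, eval_ren_id hf]
  | skip => rfl

theorem fwf_ren {ar : W → ℕ} {f : V → V'} (hf : Injective f) {φ : Fml V W} {F : List V}
    (h : φ.wf ar F = true) : (ren f id φ).wf ar (F.map f) = true := by
  induction φ generalizing F with
  | arr w xs =>
    simp only [Fml.wf, Bool.and_eq_true, decide_eq_true_eq, List.all_eq_true] at h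
    simp only [ren, Fml.wf, Bool.and_eq_true, decide_eq_true_eq, List.all_eq_true,
      List.length_map, id_eq]
    refine ⟨h.1, fun x hx => ?_⟩
    obtain ⟨y, hy, rfl⟩ := List.mem_map.1 hx
    exact List.mem_map_of_mem (h.2 y hy)
  | le x y =>
    simp only [Fml.wf, Bool.and_eq_true, decide_eq_true_eq] at h
    simp only [ren, Fml.wf, Bool.and_eq_true, decide_eq_true_eq]
    exact ⟨⟨List.mem_map_of_mem h.1.1, List.mem_map_of_mem h.1.2⟩, fun hc => h.2 (hf hc)⟩
  | not φ ih => exact ih h
  | and φ ψ ih1 ih2 =>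
    simp only [Fml.wf, Bool.and_eq_true] at h
    simp only [ren, Fml.wf, Bool.and_eq_true]
    exact ⟨ih1 h.1, ih2 h.2⟩
  | ex x φ ih =>
    simp only [Fml.wf, Bool.and_eq_true, decide_eq_true_eq] at h
    simp only [ren, Fml.wf, Bool.and_eq_true, decide_eq_true_eq]
    refine ⟨?_, by simpa using ih h.2⟩
    intro hc
    obtain ⟨y, hy, hyx⟩ := List.mem_map.1 hc
    exact h.1 (hf hyx ▸ hy)

theorem swf_ren {ar : W → ℕ} {f : V → V'} (hf : Injective f) {s : Stmt V W} {F : List V}
    (h : s.wf ar F = true) : (sren f s).wf ar (F.map f) = true := by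
  have hmem : ∀ {x : V} {F : List V}, x ∉ F → f x ∉ F.map f := by
    intro x F hx hc
    obtain ⟨y, hy, hyx⟩ := List.mem_map.1 hc
    exact hx (hf hyx ▸ hy)
  have hc : ∀ {c : Cond V W} {F : List V}, c.wf ar F = true → (cren f c).wf ar (F.map f) = true := by
    intro c F h
    cases c with
    | fml φ => exact fwf_ren hf h
    | more x φ ψ =>
      simp only [Cond.wf, Bool.and_eq_true, decide_eq_true_eq] at h
      simp only [cren, Cond.wf, Bool.and_eq_true, decide_eq_true_eq]
      exact ⟨⟨hmem h.1.1, by simpa using fwf_ren hf h.1.2⟩, by simpa using fwf_ren hf h.2⟩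
  induction s generalizing F with
  | wr w xs φ =>
    simp only [Stmt.wf, Bool.and_eq_true, decide_eq_true_eq, List.all_eq_true] at h
    simp only [sren, Stmt.wf, Bool.and_eq_true, decide_eq_true_eq, List.all_eq_true,
      List.length_map]
    refine ⟨⟨h.1.1, fun x hx => ?_⟩, fwf_ren hf h.2⟩
    obtain ⟨y, hy, rfl⟩ := List.mem_map.1 hx
    exact List.mem_map_of_mem (h.1.2 y hy)
  | seq s t ih1 ih2 =>
    simp only [Stmt.wf, Bool.and_eq_true] at h
    simp only [sren, Stmt.wf, Bool.and_eq_true]
    exact ⟨ih1 h.1, ih2 h.2⟩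
  | ite c s t ih1 ih2 =>
    simp only [Stmt.wf, Bool.and_eq_true] at h
    simp only [sren, Stmt.wf, Bool.and_eq_true]
    exact ⟨⟨hc h.1.1, ih1 h.1.2⟩, ih2 h.2⟩
  | loop x s ih =>
    simp only [Stmt.wf, Bool.and_eq_true, decide_eq_true_eq] at h
    simp only [sren, Stmt.wf, Bool.and_eq_true, decide_eq_true_eq]
    exact ⟨hmem h.1, by simpa using ih h.2⟩
  | emit φ => exact fwf_ren hf h
  | skip => rfl

end Ren

variable {V W : Type} [DecidableEq V] [DecidableEq W]

/-- There is a program with the given specification. -/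
def PDef (ar : W → ℕ) (Q : ℕ → AS W → AS W → Prop) : Prop :=
  ∃ (V : Type) (_ : Fintype V) (_ : DecidableEq V) (s : Stmt V W), s.wf ar [] = true ∧
    ∀ N e σ, Q N σ (s.run N e σ)

theorem PDef.seq {ar : W → ℕ} {Q Q' : ℕ → AS W → AS W → Prop} (h : PDef ar Q)
    (h' : PDef ar Q') : PDef ar (fun N σ τ => ∃ ρ, Q N σ ρ ∧ Q' N ρ τ) := by
  obtain ⟨V, i1, i2, s, h1, h2⟩ := h
  obtain ⟨V', i1', i2', s', h1', h2'⟩ := h'
  refine ⟨V ⊕ V', inferInstance, inferInstance, .seq (sren Sum.inl s) (sren Sum.inr s'), ?_, ?_⟩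
  · simp only [Stmt.wf, Bool.and_eq_true]
    exact ⟨swf_ren Sum.inl_injective h1, swf_ren Sum.inr_injective h1'⟩
  · intro N e σ
    refine ⟨_, h2 N (e ∘ Sum.inl) σ, ?_⟩
    simp only [Stmt.run, run_ren Sum.inl_injective, run_ren Sum.inr_injective]
    exact h2' N _ _

theorem PDef.mono {ar : W → ℕ} {Q Q' : ℕ → AS W → AS W → Prop} (h : PDef ar Q)
    (hQ : ∀ N σ τ, Q N σ τ → Q' N σ τ) : PDef ar Q' := by
  obtain ⟨V, i1, i2, s, h1, h2⟩ := h
  exact ⟨V, i1, i2, s, h1, fun N e σ => hQ _ _ _ (h2 N e σ)⟩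

/-! ### Loops -/

theorem loops_wf {ar : W → ℕ} {s : Stmt V W} (xs F : List V) (hnd : xs.Nodup)
    (hd : ∀ x ∈ xs, x ∉ F) (h : s.wf ar (xs.reverse ++ F) = true) :
    (loops xs s).wf ar F = true := by
  induction xs generalizing F with
  | nil => simpa [loops] using h
  | cons x xs ih =>
    obtain ⟨hx, hnd'⟩ := List.nodup_cons.1 hnd
    simp only [loops, Stmt.wf, Bool.and_eq_true, decide_eq_true_eq]
    refine ⟨hd x (by simp), ih (x :: F) hnd' ?_ ?_⟩
    · intro y hy hc
      rcases List.mem_cons.1 hc with rfl | hc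
      · exact hx hy
      · exact hd y (List.mem_cons_of_mem _ hy) hc
    · simpa [List.reverse_cons, List.append_assoc] using h

theorem run_loops_count {N : ℕ} {xs : List V} {s : Stmt V W} (J : ℕ → AS W → Prop)
    (h : ∀ r e σ, J r σ → J (r + 1) (s.run N e σ)) {e : V → ℕ} {σ : AS W} {r : ℕ}
    (h0 : J r σ) : J (r + N ^ xs.length) ((loops xs s).run N e σ) := by
  induction xs generalizing e σ r with
  | nil => simpa [loops] using h r e σ h0
  | cons x xs ih =>
    have := run_loop (N := N) (x := x) (s := loops xs s) (e := e)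
      (fun t σ => J (r + t * N ^ xs.length) σ)
      (by
        intro t _ σ hσ
        have := ih (e := update e x t) hσ
        rw [show r + t * N ^ xs.length + N ^ xs.length = r + (t + 1) * N ^ xs.length by ring]
          at this
        exact this)
      (σ := σ) (by simpa using h0)
    rw [List.length_cons, pow_succ, mul_comm (N ^ xs.length) N]
    exact this

/-! ### Inflationary iteration -/

/-- One round. -/
noncomputable def rnd {ar : W → ℕ} (w : W) (R : ℕ → Arr W → (Fin (ar w) → ℕ) → Prop) (N : ℕ)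
    (M : Arr W) : Arr W :=
  update M w fun l => @decide (M w l = true ∨
    ∃ d : Fin (ar w) → ℕ, (∀ i, d i < N) ∧ l = List.ofFn d ∧ R N M d) (Classical.propDecidable _)

section Iter

variable {ar : W → ℕ} {w : W} {R : ℕ → Arr W → (Fin (ar w) → ℕ) → Prop} {N : ℕ}

theorem rnd_of_ne (M : Arr W) {w' : W} (h : w' ≠ w) : rnd w R N M w' = M w' := by
  unfold rnd; rw [update_of_ne h]

theorem rnd_self (M : Arr W) (l : List ℕ) : rnd w R N M w l = true ↔ M w l = true ∨
    ∃ d : Fin (ar w) → ℕ, (∀ i, d i < N) ∧ l = List.ofFn d ∧ R N M d := by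
  unfold rnd; rw [update_self]
  exact @decide_eq_true_iff _ (Classical.propDecidable _)

theorem iter_of_ne (M : Arr W) (r : ℕ) {w' : W} (h : w' ≠ w) :
    (rnd w R N)^[r] M w' = M w' := by
  induction r with
  | zero => rfl
  | succ r ih => rw [Function.iterate_succ_apply', rnd_of_ne _ h, ih]

theorem iter_fixed (M : Arr W) :
    rnd w R N ((rnd w R N)^[N ^ ar w] M) = (rnd w R N)^[N ^ ar w] M := by
  classical
  set S : ℕ → Finset (Fin (ar w) → Fin N) := fun r => Finset.univ.filter fun d =>
    (rnd w R N)^[r] M w (List.ofFn fun i => (d i : ℕ)) = true with hS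
  have key : ∀ r, r ≤ (S r).card ∨
      rnd w R N ((rnd w R N)^[r] M) = (rnd w R N)^[r] M := by
    intro r
    induction r with
    | zero => exact Or.inl (Nat.zero_le _)
    | succ r ih =>
      by_cases hfix : rnd w R N ((rnd w R N)^[r] M) = (rnd w R N)^[r] M
      · right
        rw [Function.iterate_succ_apply', hfix, hfix]
      · left
        have hr := ih.resolve_right hfix
        have : S r ⊂ S (r + 1) := by
          rw [Finset.ssubset_iff_subset_ne]
          constructor
          · intro d hd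
            simp only [hS, Finset.mem_filter, Finset.mem_univ, true_and] at hd ⊢
            rw [Function.iterate_succ_apply', rnd_self]
            exact Or.inl hd
          · intro hEq
            apply hfix
            funext w' l
            by_cases hw : w' = w
            · subst hw
              rw [Bool.eq_iff_iff, rnd_self]
              constructor
              · rintro (h | ⟨d, hd, rfl, hR⟩)
                · exact h
                · have h1 : (fun i => (⟨d i, hd i⟩ : Fin N)) ∈ S (r + 1) := by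
                    simp only [hS, Finset.mem_filter, Finset.mem_univ, true_and]
                    rw [Function.iterate_succ_apply', rnd_self]
                    exact Or.inr ⟨d, hd, rfl, hR⟩
                  rw [← hEq] at h1
                  simpa only [hS, Finset.mem_filter, Finset.mem_univ, true_and] using h1
              · exact Or.inl
            · rw [rnd_of_ne _ hw]
        have := Finset.card_lt_card this
        omega
  rcases key (N ^ ar w) with h | h
  · have hun : S (N ^ ar w) = Finset.univ := by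
      apply Finset.eq_univ_of_card
      apply le_antisymm (Finset.card_le_univ _)
      simpa using h
    funext w' l
    by_cases hw : w' = w
    · subst hw
      rw [Bool.eq_iff_iff, rnd_self]
      constructor
      · rintro (h | ⟨d, hd, rfl, _⟩)
        · exact h
        · have h1 : (fun i => (⟨d i, hd i⟩ : Fin N)) ∈ S (N ^ ar w') := by
            rw [hun]; exact Finset.mem_univ _
          simpa only [hS, Finset.mem_filter, Finset.mem_univ, true_and] using h1
      · exact Or.inl
    · rw [rnd_of_ne _ hw]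
  · exact h

end Iter

theorem uses_or (φ ψ : Fml V W) : (φ.or ψ).uses = φ.uses ++ ψ.uses := by
  simp [Fml.or, Fml.uses]

/-- Specification of the computation of the array `w` by inflationary iteration. -/
def LfpSpec {W : Type} [DecidableEq W] {ar : W → ℕ} (C : ℕ → Arr W → Prop) (w : W)
    (R : ℕ → Arr W → (Fin (ar w) → ℕ) → Prop) (N : ℕ) (σ τ : AS (W ⊕ W)) : Prop :=
  C N (fun w => σ.a (Sum.inl w)) → (∀ l, σ.a (Sum.inl w) l = false) →
    τ.o = σ.o ∧ (∀ w' ≠ w, τ.a (Sum.inl w') = σ.a (Sum.inl w')) ∧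
    (∀ d : Fin (ar w) → ℕ, (∀ i, d i < N) → R N (fun w => τ.a (Sum.inl w)) d →
      τ.a (Sum.inl w) (List.ofFn d) = true) ∧
    ∀ P : (Fin (ar w) → ℕ) → Prop,
      (∀ M : Arr W, (∀ w' ≠ w, M w' = τ.a (Sum.inl w')) →
        (∀ d : Fin (ar w) → ℕ, (∀ i, d i < N) → M w (List.ofFn d) = true → P d) →
        ∀ d : Fin (ar w) → ℕ, (∀ i, d i < N) → R N M d → P d) →
      ∀ d : Fin (ar w) → ℕ, (∀ i, d i < N) → τ.a (Sum.inl w) (List.ofFn d) = true → P d

theorem lfp_step {W : Type} [DecidableEq W] {ar : W → ℕ} {C : ℕ → Arr W → Prop} (w : W)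
    {R : ℕ → Arr W → (Fin (ar w) → ℕ) → Prop} (h : Def ar C (Fin (ar w)) R)
    (hC : ∀ N M M', (∀ w' ≠ w, M' w' = M w') → C N M → C N M') :
    PDef (Sum.elim ar ar) (LfpSpec C w R) := by
  obtain ⟨B, i1, i2, φ, h1, h2⟩ := h
  set U := Fin (ar w) ⊕ (Fin (ar w) ⊕ B) with hU
  set xs : List U := List.ofFn fun i => Sum.inr (Sum.inl i) with hxs
  set ys : List U := List.ofFn fun i => Sum.inl i with hys
  have hxsnd : xs.Nodup := by
    rw [hxs, List.nodup_ofFn]
    intro i j hij
    exact Sum.inl_injective (Sum.inr_injective hij)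
  have hysnd : ys.Nodup := by
    rw [hys, List.nodup_ofFn]
    intro i j hij
    exact Sum.inl_injective hij
  have hxl : xs.length = ar w := by simp [hxs]
  have hyl : ys.length = ar w := by simp [hys]
  have hmx : ∀ x, x ∈ xs ↔ ∃ i, x = Sum.inr (Sum.inl i) := by
    intro x
    rw [hxs, List.mem_ofFn']
    simp [Set.mem_range, eq_comm]
  have hmy : ∀ x, x ∈ ys ↔ ∃ i, x = Sum.inl i := by
    intro x
    rw [hys, List.mem_ofFn']
    simp [Set.mem_range, eq_comm]
  set ψ : Fml U (W ⊕ W) := ren Sum.inr Sum.inl φ with hψ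
  set χ : Fml U (W ⊕ W) := (Fml.arr (Sum.inl w) xs).or ψ with hχ
  set s1 : Stmt U (W ⊕ W) := fill (Sum.inr w) xs χ with hs1
  set s2 : Stmt U (W ⊕ W) := fill (Sum.inl w) xs (.arr (Sum.inr w) xs) with hs2
  refine ⟨U, inferInstance, inferInstance, loops ys (.seq s1 s2), ?_, ?_⟩
  · apply loops_wf ys [] hysnd (by simp)
    have hdis : ∀ x ∈ xs, x ∉ ys.reverse ++ [] := by
      intro x hx hc
      rw [List.append_nil, List.mem_reverse] at hc
      obtain ⟨i, rfl⟩ := (hmx x).1 hx
      obtain ⟨j, hj⟩ := (hmy _).1 hc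
      simp at hj
    have hin : ∀ x ∈ xs, x ∈ xs.reverse ++ (ys.reverse ++ []) := by
      intro x hx
      simp [hx]
    have hWF : WFs (Sum.elim ar ar) {x | x ∈ xs.reverse ++ (ys.reverse ++ [])} ψ := by
      have := h1.ren (f := (Sum.inr : _ → U)) Sum.inr_injective (g := Sum.inl)
        (ar' := Sum.elim ar ar) (fun _ => rfl)
      refine this.mono ?_ ?_
      · rintro _ ⟨_, ⟨i, rfl⟩, rfl⟩
        exact hin _ ((hmx _).2 ⟨i, rfl⟩)
      · intro x hx hc
        rw [bv_ren] at hx
        obtain ⟨y, hy, rfl⟩ := hx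
        simp only [List.append_nil, List.mem_append, List.mem_reverse] at hc
        rcases hc with hc | hc
        · obtain ⟨i, hi⟩ := (hmx _).1 hc
          have : y = Sum.inl i := Sum.inr_injective hi
          exact h1.not_mem_bv y hy ⟨i, this.symm⟩
        · obtain ⟨i, hi⟩ := (hmy _).1 hc
          simp at hi
    simp only [Stmt.wf, Bool.and_eq_true]
    constructor
    · apply loops_wf xs _ hxsnd hdis
      simp only [Stmt.wf, Bool.and_eq_true, decide_eq_true_eq, List.all_eq_true]
      refine ⟨⟨hxl, hin⟩, ?_⟩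
      simp only [hχ, Fml.or, Fml.wf, Bool.and_eq_true, decide_eq_true_eq, List.all_eq_true]
      exact ⟨⟨hxl, hin⟩, wf_of_WFs hWF⟩
    · apply loops_wf xs _ hxsnd hdis
      simp only [Stmt.wf, Fml.wf, Bool.and_eq_true, decide_eq_true_eq, List.all_eq_true]
      exact ⟨⟨hxl, hin⟩, ⟨hxl, hin⟩⟩
  · intro N e σ hCσ hσ
    set M0 : Arr W := fun w => σ.a (Sum.inl w) with hM0
    have hOK : ∀ d : Fin (ar w) → ℕ, (∀ i, d i < N) → OKt N xs.length (List.ofFn d) := by
      intro d hd
      refine ⟨by simp [hxl], fun t ht => ?_⟩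
      obtain ⟨i, rfl⟩ := (List.mem_ofFn' _ _).1 ht
      exact hd i
    have hOK' : ∀ ts, OKt N xs.length ts → ∃ d : Fin (ar w) → ℕ, (∀ i, d i < N) ∧
        ts = List.ofFn d := by
      intro ts hts
      have hl : ts.length = ar w := hts.1.trans hxl
      refine ⟨fun i => ts.get (i.cast hl.symm), fun i => hts.2 _ (List.get_mem _ _), ?_⟩
      apply List.ext_get
      · simp [hl]
      · intro i h1 h2
        simp
    have hupd : ∀ (e : U → ℕ) (d : Fin (ar w) → ℕ) (i : Fin (ar w)),
        upds e xs (List.ofFn d) (Sum.inr (Sum.inl i)) = d i := by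
      intro e d i
      have := upds_map e xs hxsnd (List.ofFn d) (by simp [hxl])
      rw [hxs, List.map_ofFn] at this
      exact congrFun (List.ofFn_injective this) i
    have hround : ∀ (e : U → ℕ) (ρ : AS (W ⊕ W)), C N (fun w => ρ.a (Sum.inl w)) →
        ((Stmt.seq s1 s2).run N e ρ).o = ρ.o ∧
        (fun w => ((Stmt.seq s1 s2).run N e ρ).a (Sum.inl w)) =
          rnd w R N (fun w => ρ.a (Sum.inl w)) := by
      intro e ρ hCρ
      have hu1 : (Sum.inr w : W ⊕ W) ∉ χ.uses := by
        rw [hχ, uses_or, List.mem_append]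
        rintro (hc | hc)
        · simp [Fml.uses] at hc
        · obtain ⟨w', hw'⟩ := uses_ren _ _ _ _ hc
          simp at hw'
      obtain ⟨f1, f2, f3⟩ := run_fill (N := N) (Sum.inr w) xs χ hxsnd hu1 e ρ
      have hu2 : (Sum.inl w : W ⊕ W) ∉ (Fml.arr (Sum.inr w) xs : Fml U (W ⊕ W)).uses := by
        simp [Fml.uses]
      obtain ⟨g1, g2, g3, g4⟩ := run_block (N := N) (Sum.inl w) [] xs
        (.arr (Sum.inr w) xs) hxsnd (by simp) hu2 e (s1.run N e ρ)
      simp only [List.map_nil, List.nil_append] at g1 g2 g3 g4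
      refine ⟨?_, ?_⟩
      · change (s2.run N e (s1.run N e ρ)).o = _
        exact g1.trans f1
      · change (fun w => (s2.run N e (s1.run N e ρ)).a (Sum.inl w)) = _
        funext w' l
        by_cases hw : w' = w
        · subst hw
          rw [Bool.eq_iff_iff, rnd_self]
          by_cases hl : OKt N xs.length l
          · obtain ⟨d, hd, rfl⟩ := hOK' l hl
            have e1 := g3 _ hl
            rw [Fml.eval_arr, upds_map e xs hxsnd _ (by simp [hxl]), f3 _ hl] at e1
            change (s2.run N e (s1.run N e ρ)).a (Sum.inl w') (List.ofFn d) = _ at e1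
            rw [e1, hχ, Fml.eval_or, Fml.eval_arr, upds_map e xs hxsnd _ (by simp [hxl]), hψ,
              eval_ren Sum.inr_injective, h2 N _ _ hCρ (by
                intro i
                change upds e xs (List.ofFn d) (Sum.inr (Sum.inl i)) < N
                rw [hupd]; exact hd i)]
            have e2 : (upds e xs (List.ofFn d) ∘ Sum.inr) ∘ Sum.inl = d := by
              funext i
              exact hupd e d i
            rw [e2]
            constructor
            · rintro (h | h)
              · exact Or.inl h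
              · exact Or.inr ⟨d, hd, rfl, h⟩
            · rintro (h | ⟨d', _, hdd, h⟩)
              · exact Or.inl h
              · rw [List.ofFn_injective hdd]
                exact Or.inr h
          · have e1 := g4 l (fun ts hts hc => hl (hc ▸ hts))
            change (s2.run N e (s1.run N e ρ)).a (Sum.inl w') l = _ at e1
            have e2 := congrFun (f2 (Sum.inl w') (by simp)) l
            change (s1.run N e ρ).a (Sum.inl w') l = _ at e2
            rw [e1, e2]
            constructor
            · exact Or.inl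
            · rintro (h | ⟨d, hd, hdd, _⟩)
              · exact h
              · exact absurd (hdd ▸ hOK d hd) hl
        · rw [rnd_of_ne _ hw]
          have e1 := congrFun (g2 (Sum.inl w') (by simpa using hw)) l
          have e2 := congrFun (f2 (Sum.inl w') (by simp)) l
          exact e1.trans e2
    have hCiter : ∀ r, C N ((rnd w R N)^[r] M0) := fun r =>
      hC N M0 _ (fun w' hw' => iter_of_ne M0 r hw') hCσ
    have hfin := run_loops_count (N := N) (xs := ys) (s := Stmt.seq s1 s2)
      (fun r ρ => ρ.o = σ.o ∧ (fun w => ρ.a (Sum.inl w)) = (rnd w R N)^[r] M0)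
      (by
        rintro r e ρ ⟨q1, q2⟩
        obtain ⟨p1, p2⟩ := hround e ρ (by rw [q2]; exact hCiter r)
        refine ⟨p1.trans q1, ?_⟩
        rw [p2, q2, Function.iterate_succ_apply'])
      (e := e) (σ := σ) (r := 0) ⟨rfl, rfl⟩
    rw [zero_add, hyl] at hfin
    set τ := (loops ys (Stmt.seq s1 s2)).run N e σ with hτ
    obtain ⟨q1, q2⟩ := hfin
    have q3 : ∀ w', τ.a (Sum.inl w') = (rnd w R N)^[N ^ ar w] M0 w' := fun w' => congrFun q2 w'
    refine ⟨q1, ?_, ?_, ?_⟩
    · intro w' hw'
      rw [q3, iter_of_ne _ _ hw']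
    · intro d hd hR
      rw [q2] at hR
      rw [q3, ← iter_fixed, rnd_self]
      exact Or.inr ⟨d, hd, rfl, hR⟩
    · intro P hP d hd hτd
      rw [q3] at hτd
      have key : ∀ r, ∀ d : Fin (ar w) → ℕ, (∀ i, d i < N) →
          (rnd w R N)^[r] M0 w (List.ofFn d) = true → P d := by
        intro r
        induction r with
        | zero =>
          intro d _ hd'
          have : M0 w (List.ofFn d) = false := hσ _
          rw [Function.iterate_zero, id_eq, this] at hd'
          exact absurd hd' (by simp)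
        | succ r ih =>
          intro d hd hd'
          rw [Function.iterate_succ_apply', rnd_self] at hd'
          rcases hd' with hd' | ⟨d', hd'', hdd, hR⟩
          · exact ih d hd hd'
          · have : d = d' := List.ofFn_injective hdd
            subst this
            refine hP _ ?_ ih d hd hR
            intro w' hw'
            rw [q3, iter_of_ne _ _ hw', iter_of_ne _ _ hw']
      exact key _ d hd hτd

end Pool.Agent.Lib.FOLFP

end LfpPart

section BigLfpPart

/-! # Fixed points over the larger range, output, and the Turing machine -/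

namespace Pool.Agent.Lib.FOLFP

open Pool.Agent.Lib.PolyTM Function Turing

set_option linter.unusedSectionVars false

variable {W1 : Type} [DecidableEq W1] {ι : W1 → Type} [∀ w, Fintype (ι w)]
  [∀ w, DecidableEq (ι w)] {D : ℕ}

/-- The main arrays of a state. -/
def mn {W : Type} (σ : AS (W ⊕ W)) : Arr W := fun w => σ.a (Sum.inl w)

/-- The tuple of large numbers with the given list of digits. -/
noncomputable def tup (ι : W1 → Type) [∀ w, Fintype (ι w)] (D N : ℕ) (w : W1)
    (d : Fin (bar ι D (some w)) → ℕ) : ι w → ℕ :=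
  fun x => bval N fun i : Fin D => d ((pl ι D w).symm (x, i))

/-- The digits of a tuple. -/
noncomputable def dgt (ι : W1 → Type) [∀ w, Fintype (ι w)] (D N : ℕ) (w : W1) (E : ι w → ℕ) :
    Fin (bar ι D (some w)) → ℕ := fun i => bdig N (E (pl ι D w i).1) (pl ι D w i).2

theorem dgt_lt {N : ℕ} {w : W1} {E : ι w → ℕ} (hE : ∀ i, E i < N ^ D) (i) :
    dgt ι D N w E i < N := by
  unfold dgt
  rcases Nat.eq_zero_or_pos N with h0 | h0
  · exfalso
    subst h0
    have := hE (pl ι D w i).1
    rw [zero_pow (by have := (pl ι D w i).2.2; omega)] at this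
    omega
  · exact bdig_lt h0 _ _

theorem tup_dgt {N : ℕ} {w : W1} {E : ι w → ℕ} (hE : ∀ i, E i < N ^ D) :
    tup ι D N w (dgt ι D N w E) = E := by
  funext x
  unfold tup dgt
  simp only [Equiv.apply_symm_apply]
  exact bval_bdig (hE x)

theorem dgt_tup {N : ℕ} {w : W1} {d : Fin (bar ι D (some w)) → ℕ} (hd : ∀ i, d i < N) :
    dgt ι D N w (tup ι D N w d) = d := by
  funext i
  unfold dgt tup
  rw [bdig_bval (fun _ => hd _)]
  simp

theorem tup_lt {N : ℕ} {w : W1} {d : Fin (bar ι D (some w)) → ℕ} (hd : ∀ i, d i < N) (x) :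
    tup ι D N w d x < N ^ D := bval_lt fun _ => hd _

/-- Specification of the fixed point computation over the larger range. -/
def BSpec (ι : W1 → Type) [∀ w, Fintype (ι w)] (D : ℕ) (C : ℕ → Arr (Option W1) → Prop) (w : W1)
    (R : ℕ → Arr (Option W1) → (ι w → ℕ) → Prop) (N : ℕ) (σ τ : AS (Option W1 ⊕ Option W1)) :
    Prop :=
  C N (mn σ) → (∀ l, mn σ (some w) l = false) →
    τ.o = σ.o ∧ (∀ w' ≠ some w, mn τ w' = mn σ w') ∧
    (∀ E : ι w → ℕ, (∀ i, E i < N ^ D) → R N (mn τ) E → BA ι D N (mn τ) w E) ∧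
    ∀ P : (ι w → ℕ) → Prop,
      (∀ M : Arr (Option W1), (∀ w' ≠ some w, M w' = mn τ w') →
        (∀ E : ι w → ℕ, (∀ i, E i < N ^ D) → BA ι D N M w E → P E) →
        ∀ E : ι w → ℕ, (∀ i, E i < N ^ D) → R N M E → P E) →
      ∀ E : ι w → ℕ, (∀ i, E i < N ^ D) → BA ι D N (mn τ) w E → P E

theorem blfp_step {C : ℕ → Arr (Option W1) → Prop} (w : W1)
    {R : ℕ → Arr (Option W1) → (ι w → ℕ) → Prop} (h : BDef ι D C (ι w) R)
    (hC : ∀ N M M', (∀ w' ≠ some w, M' w' = M w') → C N M → C N M') :
    PDef (Sum.elim (bar ι D) (bar ι D)) (BSpec ι D C w R) := by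
  have h1 : Def (bar ι D) C (Fin (bar ι D (some w))) (fun N a d => R N a (tup ι D N w d)) :=
    Def.rename (pl ι D w).symm (pl ι D w).symm.injective h
  refine (lfp_step (some w) h1 hC).mono ?_
  intro N σ τ hs hCσ hσ
  obtain ⟨s1, s2, s3, s4⟩ := hs hCσ hσ
  refine ⟨s1, s2, ?_, ?_⟩
  · intro E hE hR
    refine s3 (dgt ι D N w E) (dgt_lt hE) ?_
    change R N (mn τ) (tup ι D N w (dgt ι D N w E))
    rw [tup_dgt hE]
    exact hR
  · intro P hP E hE hB
    have := s4 (fun d => P (tup ι D N w d)) ?_ (dgt ι D N w E) (dgt_lt hE) hB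
    · rwa [tup_dgt hE] at this
    · intro M hM hMP d hd hR
      refine hP M hM ?_ _ (tup_lt hd) hR
      intro E' hE' hB'
      have := hMP (dgt ι D N w E') (dgt_lt hE') hB'
      rwa [tup_dgt hE'] at this

/-- Output of the truth value of a definable statement. -/
theorem emit_step {C : ℕ → Arr (Option W1) → Prop}
    {R : ℕ → Arr (Option W1) → (Empty → ℕ) → Prop} (h : BDef ι D C Empty R) :
    PDef (Sum.elim (bar ι D) (bar ι D)) (fun N σ τ => C N (mn σ) →
      ∃ b : Bool, τ.o = σ.o ++ [b] ∧ (b = true ↔ R N (mn σ) Empty.elim)) := by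
  obtain ⟨B, i1, i2, φ, h1, h2⟩ := h
  refine ⟨(Empty × Fin D) ⊕ B, inferInstance, inferInstance, .emit (ren id Sum.inl φ), ?_, ?_⟩
  · have h3 := h1.ren (f := id) injective_id (g := Sum.inl)
      (ar' := Sum.elim (bar ι D) (bar ι D)) (fun _ => rfl)
    have h4 : (id '' Set.range Sum.inl : Set ((Empty × Fin D) ⊕ B)) = {x | x ∈ ([] : List _)} := by
      ext x
      constructor
      · rintro ⟨_, ⟨⟨y, _⟩, _⟩, _⟩
        exact y.elim
      · intro hx
        exact absurd hx (by simp)
    rw [h4] at h3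
    exact wf_of_WFs h3
  · intro N e σ hC
    refine ⟨_, rfl, ?_⟩
    rw [eval_ren injective_id]
    change φ.eval N (mn σ) (e ∘ id) = true ↔ _
    rw [h2 N _ _ hC (fun x => x.1.elim)]
    refine iff_of_eq (congrArg (R N (mn σ)) ?_)
    funext x
    exact x.elim

/-! ### Graphs as inputs -/

/-- Symbols that are counted. -/
def cnt : Sym → Bool
  | .sep => true
  | _ => false

/-- Bits. -/
def bit : Sym → Option Bool
  | .zero => some false
  | .one => some true
  | .sep => none

/-- Initial contents of the arrays. -/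
def ini {W1 : Type} : Option W1 ⊕ Option W1 → Sym → Option Bool
  | .inl none => bit
  | _ => fun _ => none

open Classical in
theorem encode_count (I : Graph) : I.encode.countP cnt = I.n := by
  unfold Graph.encode
  rw [List.countP_flatten, List.map_ofFn]
  have : (List.countP cnt ∘ fun i : Fin I.n =>
      (List.ofFn fun j : Fin I.n => if I.G.Adj i j then Sym.one else Sym.zero) ++ [Sym.sep])
      = fun _ => 1 := by
    funext i
    simp only [comp_apply, List.countP_append, List.countP_singleton, cnt, if_true]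
    have : List.countP cnt (List.ofFn fun j : Fin I.n =>
        if I.G.Adj i j then Sym.one else Sym.zero) = 0 := by
      rw [List.countP_eq_zero]
      intro a ha
      obtain ⟨j, rfl⟩ := (List.mem_ofFn' _ _).1 ha
      dsimp only
      split <;> simp [cnt]
    rw [this]
  rw [this]
  simp

open Classical in
theorem encode_adj (I : Graph) : I.encode.filterMap bit =
    List.ofFn fun k : Fin (I.n * I.n) => decide (I.G.Adj
      ⟨(k : ℕ) / I.n, Nat.div_lt_of_lt_mul k.2⟩
      ⟨(k : ℕ) % I.n, Nat.mod_lt _ (Nat.pos_of_ne_zero fun h => by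
        have h2 := lt_of_le_of_lt (Nat.zero_le _) k.2
        simp [h] at h2)⟩) := by
  unfold Graph.encode
  rw [List.filterMap_flatten, List.map_ofFn, List.ofFn_mul]
  congr 1
  congr 1
  funext i
  simp only [comp_apply, List.filterMap_append]
  have h1 : (List.ofFn fun j : Fin I.n => if I.G.Adj i j then Sym.one else Sym.zero) =
      (List.ofFn fun j : Fin I.n => decide (I.G.Adj i j)).map
        (fun b => if b = true then Sym.one else Sym.zero) := by
    rw [List.map_ofFn]
    congr 1
    funext j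
    simp
  rw [h1, List.filterMap_map]
  have h2 : (bit ∘ fun b : Bool => if b = true then Sym.one else Sym.zero) = some := by
    funext b
    cases b <;> simp [bit]
  rw [h2, List.filterMap_some]
  have h3 : List.filterMap bit [Sym.sep] = [] := by simp [bit]
  rw [h3, List.append_nil]
  congr 1
  funext j
  have hn : 0 < I.n := i.pos
  have e1 : ((i : ℕ) * I.n + j) / I.n = i := by
    rw [mul_comm, Nat.mul_add_div hn, Nat.div_eq_of_lt j.2, add_zero]
  have e2 : ((i : ℕ) * I.n + j) % I.n = j := by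
    rw [mul_comm, Nat.mul_add_mod, Nat.mod_eq_of_lt j.2]
  simp only [e1, e2]

/-- Adjacency on natural numbers. -/
def adjN (I : Graph) (x y : ℕ) : Prop :=
  ∃ (hx : x < I.n) (hy : y < I.n), I.G.Adj ⟨x, hx⟩ ⟨y, hy⟩

/-- The initial state. -/
noncomputable def init (W1 : Type) (I : Graph) : AS (Option W1 ⊕ Option W1) :=
  ⟨iniArr I.n ini I.encode, []⟩

theorem init_adj (I : Graph) (x y : ℕ) : BAdj I.n (mn (init W1 I)) x y ↔ adjN I x y := by
  classical
  unfold BAdj mn init iniArr adjN
  have key : ∀ (hx : x < I.n) (hy : y < I.n),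
      (cell (I.encode.filterMap (ini (W1 := W1) (Sum.inl none))) (enc I.n [x, y]) = true ↔
        I.G.Adj ⟨x, hx⟩ ⟨y, hy⟩) := by
    intro hx hy
    have h0 : (ini (W1 := W1) (Sum.inl none)) = bit := rfl
    rw [h0, encode_adj]
    unfold cell
    have hn : 0 < I.n := by omega
    have e0 : enc I.n [x, y] = x * I.n + y := by simp [enc]
    have hlt : x * I.n + y < I.n * I.n := by
      have : (x + 1) * I.n ≤ I.n * I.n := Nat.mul_le_mul_right _ hx
      nlinarith
    rw [e0, List.getD_eq_getElem _ _ (by simpa using hlt), List.getElem_ofFn]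
    have e1 : (x * I.n + y) / I.n = x := by
      rw [mul_comm, Nat.mul_add_div hn, Nat.div_eq_of_lt hy, add_zero]
    have e2 : (x * I.n + y) % I.n = y := by
      rw [mul_comm, Nat.mul_add_mod, Nat.mod_eq_of_lt hy]
    simp only [e1, e2, decide_eq_true_eq]
  constructor
  · rintro ⟨hx, hy, h⟩
    exact ⟨hx, hy, (key hx hy).1 h⟩
  · rintro ⟨hx, hy, h⟩
    exact ⟨hx, hy, (key hx hy).2 h⟩

theorem init_some (I : Graph) (w : W1) (l : List ℕ) : mn (init W1 I) (some w) l = false := by
  unfold mn init iniArr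
  have : (ini (W1 := W1) (Sum.inl (some w))) = fun _ => none := rfl
  simp [this, cell]

/-- **Programs run in polynomial time on a Turing machine.** -/
theorem machine_of_PDef [Fintype W1] {Q : ℕ → AS (Option W1 ⊕ Option W1) →
    AS (Option W1 ⊕ Option W1) → Prop} (h : PDef (Sum.elim (bar ι D) (bar ι D)) Q) :
    ∃ (f : Graph → List Bool) (M : TM2ComputableInPolyTime Graph.encode id f),
      (∀ k, Finite (M.tm.Γ k)) ∧ ∀ I : Graph, ∃ τ, Q I.n (init W1 I) τ ∧ f I = τ.o := by
  obtain ⟨V, i1, i2, s, h1, h2⟩ := h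
  obtain ⟨M, p, hfin, hM⟩ := Stmt.polytime s h1 cnt (ini (W1 := W1))
  refine ⟨fun I => s.out cnt ini I.encode, ⟨M, p, fun I => Classical.choice (hM I.encode)⟩, hfin,
    fun I => ⟨_, h2 I.n (fun _ => 0) (init W1 I), ?_⟩⟩
  simp only [Stmt.out, encode_count]
  rfl

end Pool.Agent.Lib.FOLFP

end BigLfpPart

section AssignPart

/-! # Replacing an array, in particular the input, by a definable relation -/

namespace Pool.Agent.Lib.FOLFP

open Pool.Agent.Lib.PolyTM Function

set_option linter.unusedSectionVars false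

/-- The array `w` can be replaced by a definable relation. -/
theorem assign_low {W : Type} [DecidableEq W] {ar : W → ℕ} {C : ℕ → Arr W → Prop} (w : W)
    {R : ℕ → Arr W → (Fin (ar w) → ℕ) → Prop} (h : Def ar C (Fin (ar w)) R) :
    PDef (Sum.elim ar ar) (fun N σ τ => C N (fun w => σ.a (Sum.inl w)) →
      τ.o = σ.o ∧ (∀ w' ≠ w, τ.a (Sum.inl w') = σ.a (Sum.inl w')) ∧
      ∀ d : Fin (ar w) → ℕ, (∀ i, d i < N) →
        (τ.a (Sum.inl w) (List.ofFn d) = true ↔ R N (fun w => σ.a (Sum.inl w)) d)) := by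
  obtain ⟨B, i1, i2, φ, h1, h2⟩ := h
  set xs : List (Fin (ar w) ⊕ B) := List.ofFn fun i => Sum.inl i with hxs
  have hxsnd : xs.Nodup := by
    rw [hxs, List.nodup_ofFn]
    intro i j hij
    exact Sum.inl_injective hij
  have hxl : xs.length = ar w := by simp [hxs]
  have hmx : ∀ x, x ∈ xs ↔ ∃ i, x = Sum.inl i := by
    intro x
    rw [hxs, List.mem_ofFn']
    simp [Set.mem_range, eq_comm]
  set ψ : Fml (Fin (ar w) ⊕ B) (W ⊕ W) := ren id Sum.inl φ with hψ
  set s1 : Stmt (Fin (ar w) ⊕ B) (W ⊕ W) := fill (Sum.inr w) xs ψ with hs1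
  set s2 : Stmt (Fin (ar w) ⊕ B) (W ⊕ W) := fill (Sum.inl w) xs (.arr (Sum.inr w) xs) with hs2
  refine ⟨Fin (ar w) ⊕ B, inferInstance, inferInstance, .seq s1 s2, ?_, ?_⟩
  · have hin : ∀ x ∈ xs, x ∈ xs.reverse ++ ([] : List (Fin (ar w) ⊕ B)) := by
      intro x hx
      simp [hx]
    have hWF : WFs (Sum.elim ar ar) {x | x ∈ xs.reverse ++ ([] : List (Fin (ar w) ⊕ B))} ψ := by
      have := h1.ren (f := (id : Fin (ar w) ⊕ B → Fin (ar w) ⊕ B)) injective_id (g := Sum.inl)
        (ar' := Sum.elim ar ar) (fun _ => rfl)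
      refine this.mono ?_ ?_
      · rintro _ ⟨_, ⟨i, rfl⟩, rfl⟩
        exact hin _ ((hmx _).2 ⟨i, rfl⟩)
      · intro x hx hc
        rw [bv_ren] at hx
        obtain ⟨y, hy, rfl⟩ := hx
        simp only [List.append_nil, List.mem_reverse, Set.mem_ofPred_eq] at hc
        obtain ⟨i, hi⟩ := (hmx _).1 hc
        exact h1.not_mem_bv y hy ⟨i, hi.symm⟩
    simp only [Stmt.wf, Bool.and_eq_true]
    constructor
    · apply loops_wf xs _ hxsnd (by simp)
      simp only [Stmt.wf, Bool.and_eq_true, decide_eq_true_eq, List.all_eq_true]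
      exact ⟨⟨hxl, hin⟩, wf_of_WFs hWF⟩
    · apply loops_wf xs _ hxsnd (by simp)
      simp only [Stmt.wf, Fml.wf, Bool.and_eq_true, decide_eq_true_eq, List.all_eq_true]
      exact ⟨⟨hxl, hin⟩, ⟨hxl, hin⟩⟩
  · intro N e σ hC
    have hOK : ∀ d : Fin (ar w) → ℕ, (∀ i, d i < N) → OKt N xs.length (List.ofFn d) := by
      intro d hd
      refine ⟨by simp [hxl], fun t ht => ?_⟩
      obtain ⟨i, rfl⟩ := (List.mem_ofFn' _ _).1 ht
      exact hd i
    have hupd : ∀ (e : Fin (ar w) ⊕ B → ℕ) (d : Fin (ar w) → ℕ) (i : Fin (ar w)),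
        upds e xs (List.ofFn d) (Sum.inl i) = d i := by
      intro e d i
      have := upds_map e xs hxsnd (List.ofFn d) (by simp [hxl])
      rw [hxs, List.map_ofFn] at this
      exact congrFun (List.ofFn_injective this) i
    have hu1 : (Sum.inr w : W ⊕ W) ∉ ψ.uses := by
      intro hc
      obtain ⟨w', hw'⟩ := uses_ren _ _ _ _ hc
      simp at hw'
    obtain ⟨f1, f2, f3⟩ := run_fill (N := N) (Sum.inr w) xs ψ hxsnd hu1 e σ
    have hu2 : (Sum.inl w : W ⊕ W) ∉ (Fml.arr (Sum.inr w) xs : Fml (Fin (ar w) ⊕ B) (W ⊕ W)).uses := by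
      simp [Fml.uses]
    obtain ⟨g1, g2, g3⟩ := run_fill (N := N) (Sum.inl w) xs (.arr (Sum.inr w) xs) hxsnd hu2 e
      (s1.run N e σ)
    refine ⟨g1.trans f1, ?_, ?_⟩
    · intro w' hw'
      exact (g2 (Sum.inl w') (by simpa using hw')).trans (f2 (Sum.inl w') (by simp))
    · intro d hd
      have e1 := g3 _ (hOK d hd)
      rw [Fml.eval_arr, upds_map e xs hxsnd _ (by simp [hxl]), f3 _ (hOK d hd)] at e1
      change (s2.run N e (s1.run N e σ)).a (Sum.inl w) (List.ofFn d) = true ↔ _
      rw [e1, hψ, eval_ren injective_id, h2 N _ _ hC (by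
        intro i
        change upds e xs (List.ofFn d) (Sum.inl i) < N
        rw [hupd]; exact hd i)]
      refine iff_of_eq (congrArg (R N _) ?_)
      funext i
      exact hupd e d i

variable {W1 : Type} [DecidableEq W1] {ι : W1 → Type} [∀ w, Fintype (ι w)]
  [∀ w, DecidableEq (ι w)] {D : ℕ}

/-- Numbers below `N` as numbers below `N ^ (D + 1)`. -/
theorem BDef.low {C : ℕ → Arr (Option W1) → Prop} {κ : Type} [DecidableEq κ] [Fintype κ]
    {R : ℕ → Arr (Option W1) → (κ → ℕ) → Prop} (h : BDef ι (D + 1) C κ R) :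
    Def (bar ι (D + 1)) C κ R := by
  have h1 : Def (bar ι (D + 1)) C (κ ⊕ Unit) (fun N a d =>
      R N a (fun x => bval N (fun i : Fin (D + 1) =>
        if i = 0 then d (.inl x) else d (.inr ())))) := by
    have := Def.subst (κ' := κ ⊕ Unit) (fun x : κ × Fin (D + 1) =>
      if x.2 = 0 then Sum.inl x.1 else Sum.inr ()) h
    refine this.congr ?_
    intro N a e _ _
    refine iff_of_eq (congrArg (R N a) ?_)
    funext x
    refine congrArg (bval N) ?_
    funext i
    by_cases hi : i = 0
    · simp [hi]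
    · simp [hi]
  have h2 : Def (bar ι (D + 1)) C (κ ⊕ Unit) (fun N _ d => d (.inr ()) = 0) := by
    have h : Def (bar ι (D + 1)) C ((κ ⊕ Unit) ⊕ Unit)
      (fun _ _ e => e (Sum.inl (Sum.inr ())) ≤ e (Sum.inr ())) := Def.le _ _
    refine h.all'.congr ?_
    intro N a e _ he
    constructor
    · intro g
      have := g (fun _ => 0) (fun _ => lt_of_le_of_lt (Nat.zero_le _) (he (.inr ())))
      simpa using this
    · intro g t _
      simp [g]
  have key : ∀ (N : ℕ) (y : ℕ), bval N (fun i : Fin (D + 1) => if i = 0 then y else 0) = y := by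
    intro N y
    simp [bval]
  by_cases hκ : Nonempty κ
  · obtain ⟨x0⟩ := hκ
    refine (h2.and h1).ex.congr ?_
    intro N a e _ he
    constructor
    · rintro ⟨t, _, g1, g2⟩
      have g1 : t () = 0 := g1
      refine (iff_of_eq (congrArg (R N a) ?_)).mp g2
      funext x
      simp only [Sum.elim_inl, Sum.elim_inr, g1]
      exact key N (e x)
    · intro g
      refine ⟨fun _ => 0, fun _ => lt_of_le_of_lt (Nat.zero_le _) (he x0), rfl, ?_⟩
      refine (iff_of_eq (congrArg (R N a) ?_)).mpr g
      funext x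
      simp only [Sum.elim_inl, Sum.elim_inr]
      exact key N (e x)
  · have hemp : IsEmpty κ := not_nonempty_iff.1 hκ
    have := Def.subst (κ' := κ) (fun x : κ × Fin (D + 1) => (hemp.false x.1).elim) h
    refine this.congr ?_
    intro N a e _ _
    refine iff_of_eq (congrArg (R N a) ?_)
    funext x
    exact (hemp.false x).elim

/-- **The input graph can be replaced by a definable relation.** -/
theorem assign_step {C : ℕ → Arr (Option W1) → Prop}
    {R : ℕ → Arr (Option W1) → (Fin 2 → ℕ) → Prop} (h : BDef ι (D + 1) C (Fin 2) R) :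
    PDef (Sum.elim (bar ι (D + 1)) (bar ι (D + 1))) (fun N σ τ => C N (mn σ) →
      τ.o = σ.o ∧ (∀ w, mn τ (some w) = mn σ (some w)) ∧
      ∀ x y, BAdj N (mn τ) x y ↔ x < N ∧ y < N ∧ R N (mn σ) ![x, y]) := by
  refine (assign_low (ar := bar ι (D + 1)) none (R := R) h.low).mono ?_
  intro N σ τ hs hC
  obtain ⟨h1, h2, h3⟩ := hs hC
  refine ⟨h1, fun w => h2 (some w) (by simp), fun x y => ?_⟩
  constructor
  · rintro ⟨hx, hy, hxy⟩
    refine ⟨hx, hy, (h3 ![x, y] ?_).1 ?_⟩
    · intro i
      change Fin 2 at i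
      fin_cases i
      exacts [hx, hy]
    · simpa [List.ofFn_succ, bar, mn] using hxy
  · rintro ⟨hx, hy, hR⟩
    refine ⟨hx, hy, ?_⟩
    have := (h3 ![x, y] (by
      intro i
      change Fin 2 at i
      fin_cases i
      exacts [hx, hy])).2 hR
    simpa [List.ofFn_succ, bar, mn] using this

end Pool.Agent.Lib.FOLFP

end AssignPart
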